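import Pool.Agent.L5helper32.GR.Indep
import Pool.Agent.L5helper32.GR.Next
import Pool.Agent.TH662.CP.Count

set_option autoImplicit false

open Finset MeasureTheory ProbabilityTheory

namespace Pool.Agent.L5helper32.GR.GRFive

/-! ### The polynomial `q_p` -/

theorem q_mul (p t : ℕ) : (t + 1) ^ p = 1 + t * q p t := by
  unfold q
  rw [add_pow, Finset.mul_sum, Finset.range_eq_Ico, Finset.sum_eq_sum_Ico_succ_bot (by omega)]
  have h1 : Finset.Ico (0 + 1) (p + 1) = Finset.Icc 1 p := by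
    ext k; simp only [Finset.mem_Ico, Finset.mem_Icc]; omega
  rw [h1]
  congr 1
  · simp
  · refine Finset.sum_congr rfl fun k hk => ?_
    have hk1 : 1 ≤ k := (Finset.mem_Icc.1 hk).1
    obtain ⟨m, rfl⟩ : ∃ m, k = m + 1 := ⟨k - 1, by omega⟩
    simp only [one_pow, mul_one, Nat.add_sub_cancel, Nat.cast_id]
    ring

theorem le_q {p : ℕ} (hp : 1 ≤ p) (n : ℕ) : n ^ (p - 1) ≤ q p n := by
  unfold q
  have h : p ∈ Finset.Icc 1 p := Finset.mem_Icc.2 ⟨hp, le_rfl⟩
  have := Finset.single_le_sum (f := fun k => p.choose k * n ^ (k - 1)) (fun _ _ => Nat.zero_le _) h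
  simpa using this

/-- For a prime `r ≡ 1` modulo `p` the polynomial `q_p` has a root modulo `r`. -/
theorem exists_root {p r : ℕ} (hp : p.Prime) (hr : r.Prime) (h : r ≡ 1 [MOD p]) :
    ∃ t < r, r ∣ q p t := by
  have : Fact r.Prime := ⟨hr⟩
  have : Fact p.Prime := ⟨hp⟩
  have hdvd : p ∣ r - 1 := (Nat.modEq_iff_dvd' hr.one_lt.le).1 h.symm
  have hcard : p ∣ Fintype.card (ZMod r)ˣ := by
    rw [ZMod.card_units]; exact hdvd
  obtain ⟨u, hu⟩ := exists_prime_orderOf_dvd_card p hcard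
  have hu1 : (u : ZMod r) ≠ 1 := by
    intro h1
    have : u = 1 := Units.ext h1
    rw [this, orderOf_one] at hu
    exact hp.one_lt.ne hu
  have hup : (u : ZMod r) ^ p = 1 := by
    have : u ^ p = 1 := by rw [← hu]; exact pow_orderOf_eq_one u
    rw [← Units.val_pow_eq_pow_val, this, Units.val_one]
  refine ⟨((u : ZMod r) - 1).val, ZMod.val_lt _, ?_⟩
  set t := ((u : ZMod r) - 1).val with ht
  have htc : ((t : ℕ) : ZMod r) = (u : ZMod r) - 1 := by
    rw [ht, ZMod.natCast_zmod_val]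
  have hq : (((t + 1) ^ p : ℕ) : ZMod r) = ((1 + t * q p t : ℕ) : ZMod r) := by rw [q_mul]
  push_cast at hq
  rw [htc] at hq
  have h2 : ((u : ZMod r) - 1) * ((q p t : ℕ) : ZMod r) = 0 := by
    have h3 : ((u : ZMod r) - 1 + 1) ^ p = 1 := by rw [sub_add_cancel, hup]
    rw [h3] at hq
    linear_combination -hq
  have h4 : ((q p t : ℕ) : ZMod r) = 0 := by
    rcases mul_eq_zero.1 h2 with h5 | h5
    · exact absurd (sub_eq_zero.1 h5) hu1
    · exact h5
  exact (ZMod.natCast_eq_zero_iff _ _).1 h4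

/-! ### The sum over the primes -/

/-- The primes `r ≡ 1` modulo `p` in `(a, b]`. -/
def R (p a b : ℕ) : Finset ℕ := (Ioc a b).filter fun r => r.Prime ∧ r ≡ 1 [MOD p]

theorem sum_block {p : ℕ} (hp : 1 ≤ p) : ∃ N : ℕ, 2 ≤ N ∧ ∀ m ≥ N,
    1 / (8 * (p.totient : ℝ) * Real.log m) ≤ ∑ r ∈ R p m (2 * m), (1 : ℝ) / r := by
  have h := Pool.Agent.TH662.CP.count_primes_mod p hp 1 (Nat.coprime_one_left p)
  obtain ⟨Y, hY⟩ := Filter.eventually_atTop.1 h
  refine ⟨max 2 ⌈Y⌉₊, le_max_left _ _, fun m hm => ?_⟩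
  have hm2 : 2 ≤ m := le_trans (le_max_left _ _) hm
  have hmY : Y ≤ m := le_trans (Nat.le_ceil Y) (by exact_mod_cast le_trans (le_max_right _ _) hm)
  have h1 := hY m hmY
  have e1 : ⌊(m : ℝ)⌋₊ = m := Nat.floor_natCast m
  have e2 : ⌊2 * (m : ℝ)⌋₊ = 2 * m := by
    have : (2 * (m : ℝ)) = ((2 * m : ℕ) : ℝ) := by push_cast; ring
    rw [this, Nat.floor_natCast]
  rw [e1, e2] at h1
  have hmpos : (0 : ℝ) < m := by positivity
  have hlog : 0 < Real.log m := Real.log_pos (by exact_mod_cast hm2)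
  have hφ : (0 : ℝ) < p.totient := by exact_mod_cast Nat.totient_pos.2 hp
  have h2 : ∑ r ∈ R p m (2 * m), (1 : ℝ) / r ≥ ∑ r ∈ R p m (2 * m), (1 : ℝ) / (2 * m) := by
    refine Finset.sum_le_sum fun r hr => ?_
    have hr' := (Finset.mem_filter.1 hr).1
    have hr1 : (0 : ℝ) < r := by
      have : m < r := (Finset.mem_Ioc.1 hr').1
      exact_mod_cast (by omega : 0 < r)
    have hr2 : (r : ℝ) ≤ 2 * m := by exact_mod_cast (Finset.mem_Ioc.1 hr').2
    exact one_div_le_one_div_of_le hr1 hr2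
  refine le_trans ?_ h2
  rw [Finset.sum_const, nsmul_eq_mul]
  have h3 : (m : ℝ) / (4 * p.totient * Real.log m) ≤ ((R p m (2 * m)).card : ℝ) := h1
  calc 1 / (8 * (p.totient : ℝ) * Real.log m)
      = (m : ℝ) / (4 * p.totient * Real.log m) * (1 / (2 * m)) := by
        field_simp; norm_num
    _ ≤ ((R p m (2 * m)).card : ℝ) * (1 / (2 * m)) := by gcongr

theorem R_split {p a b c : ℕ} (hab : a ≤ b) (hbc : b ≤ c) :
    ∑ r ∈ R p a c, (1 : ℝ) / r = ∑ r ∈ R p a b, (1 : ℝ) / r + ∑ r ∈ R p b c, (1 : ℝ) / r := by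
  unfold R
  rw [← Finset.sum_union, ← Finset.filter_union, Finset.Ioc_union_Ioc_eq_Ioc hab hbc]
  exact Finset.disjoint_filter_filter (Finset.Ioc_disjoint_Ioc_of_le le_rfl)

theorem R_mono {p a b c : ℕ} (hbc : b ≤ c) :
    ∑ r ∈ R p a b, (1 : ℝ) / r ≤ ∑ r ∈ R p a c, (1 : ℝ) / r := by
  refine Finset.sum_le_sum_of_subset_of_nonneg ?_ fun _ _ _ => by positivity
  intro r hr
  simp only [R, Finset.mem_filter, Finset.mem_Ioc] at hr ⊢
  exact ⟨⟨hr.1.1, hr.1.2.trans hbc⟩, hr.2⟩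

theorem sum_lower {p : ℕ} (hp : 1 ≤ p) : ∃ c : ℝ, 0 < c ∧ ∃ N : ℕ, ∀ n ≥ N,
    ∀ L ≤ 4 * n, c ≤ ∑ r ∈ R p (L + 2) (n ^ 2), (1 : ℝ) / r := by
  obtain ⟨N, hN2, hN⟩ := sum_block hp
  have hφ : (0 : ℝ) < p.totient := by exact_mod_cast Nat.totient_pos.2 hp
  refine ⟨1 / (32 * p.totient), by positivity, max N 256, fun n hn L hL => ?_⟩
  have hnN : N ≤ n := le_trans (le_max_left _ _) hn
  have hn16 : 256 ≤ n := le_trans (le_max_right _ _) hn
  have hn0 : (0 : ℝ) < n := by positivity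
  -- the blocks
  have hblocks : ∀ J : ℕ, 2 ^ J * (4 * n + 2) ≤ n ^ 2 →
      J * (1 / (16 * (p.totient : ℝ) * Real.log n)) ≤
        ∑ r ∈ R p (4 * n + 2) (2 ^ J * (4 * n + 2)), (1 : ℝ) / r := by
    intro J
    induction J with
    | zero => intro _; simp only [Nat.cast_zero, zero_mul]; exact Finset.sum_nonneg fun _ _ => by positivity
    | succ J ih =>
      intro hJ
      have hle : 2 ^ J * (4 * n + 2) ≤ n ^ 2 := by
        refine le_trans ?_ hJ
        exact Nat.mul_le_mul_right _ (Nat.pow_le_pow_right (by norm_num) (Nat.le_succ J))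
      have h1 := ih hle
      have e : 2 ^ (J + 1) * (4 * n + 2) = 2 * (2 ^ J * (4 * n + 2)) := by ring
      rw [e]
      have ha : 4 * n + 2 ≤ 2 ^ J * (4 * n + 2) := Nat.le_mul_of_pos_left _ (by positivity)
      rw [R_split ha (by omega : 2 ^ J * (4 * n + 2) ≤ 2 * (2 ^ J * (4 * n + 2)))]
      have hm : N ≤ 2 ^ J * (4 * n + 2) := by omega
      have h2 := hN _ hm
      have hlog1 : Real.log ((2 ^ J * (4 * n + 2) : ℕ) : ℝ) ≤ 2 * Real.log n := by
        have : ((2 ^ J * (4 * n + 2) : ℕ) : ℝ) ≤ (n : ℝ) ^ 2 := by exact_mod_cast hle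
        calc Real.log ((2 ^ J * (4 * n + 2) : ℕ) : ℝ) ≤ Real.log ((n : ℝ) ^ 2) :=
              Real.log_le_log (by exact_mod_cast (by omega : 0 < 2 ^ J * (4 * n + 2))) this
          _ = 2 * Real.log n := by rw [Real.log_pow]; norm_num
      have hlog0 : 0 < Real.log ((2 ^ J * (4 * n + 2) : ℕ) : ℝ) :=
        Real.log_pos (by exact_mod_cast (by omega : 1 < 2 ^ J * (4 * n + 2)))
      have h3 : 1 / (16 * (p.totient : ℝ) * Real.log n) ≤
          1 / (8 * (p.totient : ℝ) * Real.log ((2 ^ J * (4 * n + 2) : ℕ) : ℝ)) := by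
        apply one_div_le_one_div_of_le (by positivity)
        nlinarith
      push_cast
      push_cast at h1 h2 h3
      linarith
  -- the number of the blocks
  set J := Nat.log 2 n - 3 with hJ
  have hlog8 : 8 ≤ Nat.log 2 n := by
    have : Nat.log 2 256 ≤ Nat.log 2 n := Nat.log_mono_right hn16
    have h256 : Nat.log 2 256 = 8 := by
      rw [show (256 : ℕ) = 2 ^ 8 by norm_num]; exact Nat.log_pow (by norm_num) 8
    omega
  have hpow : 2 ^ J * 8 ≤ n := by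
    have : 2 ^ J * 8 = 2 ^ (Nat.log 2 n) := by
      rw [show (8 : ℕ) = 2 ^ 3 by norm_num, ← pow_add]; congr 1; omega
    rw [this]; exact Nat.pow_log_le_self 2 (by omega)
  have hJn : 2 ^ J * (4 * n + 2) ≤ n ^ 2 := by nlinarith
  have h1 := hblocks J hJn
  have hlogn : 0 < Real.log n := Real.log_pos (by exact_mod_cast (by omega : 1 < n))
  have hJlog : Real.log n / 2 ≤ J := by
    have h2 : (n : ℝ) < 2 ^ (Nat.log 2 n + 1) := by
      exact_mod_cast Nat.lt_pow_succ_log_self (by norm_num) n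
    have h3 : Real.log n ≤ (Nat.log 2 n + 1 : ℕ) * Real.log 2 := by
      rw [← Real.log_pow]; exact Real.log_le_log hn0 h2.le
    have h4 : Real.log 2 < 0.7 := by have := Real.log_two_lt_d9; linarith
    have h5 : (J : ℝ) = Nat.log 2 n - 3 := by rw [hJ]; push_cast [Nat.cast_sub (by omega : 3 ≤ Nat.log 2 n)]; ring
    have h6 : (8 : ℝ) ≤ Nat.log 2 n := by exact_mod_cast hlog8
    push_cast at h3
    rw [h5]
    nlinarith
  have h2 : (1 : ℝ) / (32 * p.totient) ≤ J * (1 / (16 * (p.totient : ℝ) * Real.log n)) := by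
    calc (1 : ℝ) / (32 * p.totient) = (Real.log n / 2) * (1 / (16 * (p.totient : ℝ) * Real.log n)) := by
          field_simp; norm_num
      _ ≤ J * (1 / (16 * (p.totient : ℝ) * Real.log n)) := by gcongr
  have hsub : ∑ r ∈ R p (4 * n + 2) (2 ^ J * (4 * n + 2)), (1 : ℝ) / r
      ≤ ∑ r ∈ R p (L + 2) (n ^ 2), (1 : ℝ) / r := by
    refine Finset.sum_le_sum_of_subset_of_nonneg ?_ fun _ _ _ => by positivity
    intro r hr
    simp only [R, Finset.mem_filter, Finset.mem_Ioc] at hr ⊢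
    exact ⟨⟨by omega, by omega⟩, hr.2⟩
  linarith

/-! ### The probability -/

variable {Ω : Type} [MeasurableSpace Ω] {μ : Measure Ω} [IsProbabilityMeasure μ]
  {T : ℕ × ℕ → Ω → ℕ}

theorem prob_q (h : Res μ T) {p : ℕ} (hp : p.Prime) (n : ℕ) {r : ℕ} (hr : r.Prime)
    (h1 : r ≡ 1 [MOD p]) : μ.real {ω | ¬ r ∣ q p (T (n, r) ω)} ≤ 1 - 1 / r := by
  obtain ⟨t, htr, ht⟩ := exists_root hp hr h1
  have hm : MeasurableSet {ω | T (n, r) ω = t} := h.meas (n, r) (measurableSet_singleton t)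
  have h2 : {ω | ¬ r ∣ q p (T (n, r) ω)} ⊆ {ω | T (n, r) ω = t}ᶜ := by
    intro ω hω hωt
    simp only [Set.mem_ofPred_eq] at hω hωt
    rw [hωt] at hω
    exact hω ht
  calc μ.real {ω | ¬ r ∣ q p (T (n, r) ω)} ≤ μ.real {ω | T (n, r) ω = t}ᶜ := measureReal_mono h2
    _ = 1 - 1 / r := by rw [probReal_compl_eq_one_sub hm, h.unif n r hr t htr]

theorem prob_ex (h : Res μ T) {p : ℕ} (hp : p.Prime) (n a b : ℕ) :
    1 - Real.exp (-∑ r ∈ R p a b, (1 : ℝ) / r) ≤
      μ.real {ω | ∃ r ∈ R p a b, r ∣ q p (T (n, r) ω)} := by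
  have hmeas : MeasurableSet {ω | ∃ r ∈ R p a b, r ∣ q p (T (n, r) ω)} := by
    have : {ω | ∃ r ∈ R p a b, r ∣ q p (T (n, r) ω)}
        = ⋃ r ∈ R p a b, (T (n, r)) ⁻¹' {v | r ∣ q p v} := by
      ext ω; simp
    rw [this]
    exact Finset.measurableSet_biUnion _ fun r _ => h.meas (n, r) (MeasurableSet.of_discrete)
  have hc : {ω | ∃ r ∈ R p a b, r ∣ q p (T (n, r) ω)}ᶜ
      = {ω | ∀ i ∈ ({n} : Finset ℕ) ×ˢ R p a b, ¬ i.2 ∣ q p (T i ω)} := by
    ext ω
    simp only [Set.mem_compl_iff, Set.mem_ofPred_eq, not_exists, not_and, Finset.mem_product,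
      Finset.mem_singleton, Prod.forall]
    constructor
    · rintro hω x r ⟨rfl, hr⟩; exact hω r hr
    · intro hω r hr; exact hω n r ⟨rfl, hr⟩
  have h1 : μ.real {ω | ∃ r ∈ R p a b, r ∣ q p (T (n, r) ω)}ᶜ
      ≤ Real.exp (-∑ r ∈ R p a b, (1 : ℝ) / r) := by
    rw [hc, indep_forall h.meas h.indep _ (fun i v => ¬ i.2 ∣ q p v), Finset.prod_product,
      Finset.prod_singleton, ← Finset.sum_neg_distrib, Real.exp_sum]
    refine Finset.prod_le_prod (fun _ _ => measureReal_nonneg) fun r hr => ?_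
    have hr' := Finset.mem_filter.1 hr
    refine (prob_q h hp n hr'.2.1 hr'.2.2).trans ?_
    have := Real.add_one_le_exp (-((1 : ℝ) / r))
    linarith
  rw [probReal_compl_eq_one_sub hmeas] at h1
  linarith

/-- For `p ≥ 5`: after a good descent `q_p(n)` is composite with probability at least `c`. -/
theorem five_bad {p : ℕ} (hp : p.Prime) (h5 : 5 ≤ p) : ∃ c : ℝ, 0 < c ∧ ∃ z₁ : ℕ, ∀ z ≥ z₁,
    ∀ {Ω : Type} [MeasurableSpace Ω] (μ : Measure Ω) [IsProbabilityMeasure μ]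
      (T : ℕ × ℕ → Ω → ℕ), Res μ T →
      c * μ.real {ω | GoodRun p (res T ω) z} ≤ μ.real {ω | GoodRun p (res T ω) z ∧
        ¬ QPrime p (res T ω (nextZero p (res T ω) z)) (nextZero p (res T ω) z)} := by
  obtain ⟨c', hc', N, hN⟩ := sum_lower (p := p) (by omega)
  refine ⟨1 - Real.exp (-c'), by
    have := (Real.exp_lt_exp.2 (neg_lt_zero.2 hc')).trans_eq Real.exp_zero
    linarith,
    4 * N + 1, ?_⟩
  intro z hz Ω _ μ _ T hT
  have hp1 : 1 ≤ p := by omega
  have hz1 : 1 ≤ z := by omega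
  set L := lev p z with hL
  have hzL : z ≤ L := by rw [hL]; unfold lev; omega
  -- the sets
  let A : ℕ → Set (ℕ × ℕ → ℕ) := fun n => {f | GoodRun p (fun c r => f (c, r)) z ∧
    nextZero p (fun c r => f (c, r)) z = n}
  let B : ℕ → Set (ℕ × ℕ → ℕ) := fun n => {f | ∃ r ∈ R p (L + 2) (n ^ 2), r ∣ q p (f (n, r))}
  have hA : ∀ n, Dep (range (L + 1) ×ˢ range (L + 3)) (A n) := fun n => dep_run hp1 hz1 n
  have hB : ∀ n, Dep (({n} : Finset ℕ) ×ˢ R p (L + 2) (n ^ 2)) (B n) := by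
    intro n f g hfg
    have key : ∀ f g : ℕ × ℕ → ℕ, (∀ i ∈ ({n} : Finset ℕ) ×ˢ R p (L + 2) (n ^ 2), f i = g i) →
        f ∈ B n → g ∈ B n := by
      rintro f g hfg ⟨r, hr, hrq⟩
      refine ⟨r, hr, ?_⟩
      rw [← hfg (n, r) (Finset.mem_product.2 ⟨Finset.mem_singleton_self n, hr⟩)]
      exact hrq
    exact ⟨key f g hfg, key g f fun i hi => (hfg i hi).symm⟩
  have hdisj : ∀ n, Disjoint (range (L + 1) ×ˢ range (L + 3))
      (({n} : Finset ℕ) ×ˢ R p (L + 2) (n ^ 2)) := by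
    intro n
    rw [Finset.disjoint_left]
    rintro ⟨x, r⟩ h1 h2
    have h3 := (Finset.mem_product.1 h1).2
    have h4 := (Finset.mem_product.1 h2).2
    have h5 := (Finset.mem_Ioc.1 (Finset.mem_filter.1 h4).1).1
    simp only [Finset.mem_range] at h3
    omega
  let F : Ω → ℕ × ℕ → ℕ := fun ω i => T i ω
  have hFr : ∀ ω, (fun c r => F ω (c, r)) = res T ω := fun ω => rfl
  -- one level
  have hone : ∀ n ∈ range (L + 1), (1 - Real.exp (-c')) * μ.real {ω | F ω ∈ A n}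
      ≤ μ.real {ω | F ω ∈ A n ∧ F ω ∈ B n} := by
    intro n _
    by_cases hn : L ≤ 4 * n
    · have hnN : N ≤ n := by omega
      rw [dep_indep hT.meas hT.indep (hdisj n) (hA n) (hB n), mul_comm]
      refine mul_le_mul_of_nonneg_left ?_ measureReal_nonneg
      have h1 := prob_ex hT hp n (L + 2) (n ^ 2)
      have h2 := hN n hnN L hn
      have h3 : Real.exp (-∑ r ∈ R p (L + 2) (n ^ 2), (1 : ℝ) / r) ≤ Real.exp (-c') :=
        Real.exp_le_exp.2 (neg_le_neg h2)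
      have h4 : μ.real {ω | ∃ r ∈ R p (L + 2) (n ^ 2), r ∣ q p (T (n, r) ω)}
          = μ.real {ω | (fun i => T i ω) ∈ B n} := rfl
      rw [← h4]
      linarith
    · have hemp : {ω | F ω ∈ A n} = ∅ := by
        ext ω
        simp only [Set.mem_ofPred_eq, Set.mem_empty_iff_false, iff_false]
        rintro ⟨h1, h2⟩
        have h3 := h1.1
        rw [h2] at h3
        exact hn h3
      rw [hemp, measureReal_empty, mul_zero]
      exact measureReal_nonneg
  have hmA : ∀ n, MeasurableSet {ω | F ω ∈ A n} := fun n => dep_meas hT.meas (hA n)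
  have hmB : ∀ n, MeasurableSet {ω | F ω ∈ B n} := fun n => dep_meas hT.meas (hB n)
  -- the union over the levels
  have hunion : {ω | GoodRun p (res T ω) z} = ⋃ n ∈ range (L + 1), {ω | F ω ∈ A n} := by
    ext ω
    simp only [Set.mem_ofPred_eq, Set.mem_iUnion, Finset.mem_range, exists_prop]
    constructor
    · intro h
      exact ⟨nextZero p (res T ω) z, Nat.lt_succ_of_le (nextZero_le hp1 _ hz1), h, rfl⟩
    · rintro ⟨n, _, h, _⟩; exact h
  have hdisjA : ∀ (s : Finset ℕ), (s : Set ℕ).PairwiseDisjoint fun n => {ω | F ω ∈ A n} := by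
    intro s i _ j _ hij
    change Disjoint {ω | F ω ∈ A i} {ω | F ω ∈ A j}
    rw [Set.disjoint_left]
    rintro ω ⟨_, h1⟩ ⟨_, h2⟩
    exact hij (h1.symm.trans h2)
  have hsum : μ.real {ω | GoodRun p (res T ω) z}
      = ∑ n ∈ range (L + 1), μ.real {ω | F ω ∈ A n} := by
    rw [hunion, measureReal_biUnion_finset (hdisjA _) fun n _ => hmA n]
  have hsum2 : μ.real (⋃ n ∈ range (L + 1), {ω | F ω ∈ A n ∧ F ω ∈ B n})
      = ∑ n ∈ range (L + 1), μ.real {ω | F ω ∈ A n ∧ F ω ∈ B n} := by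
    refine measureReal_biUnion_finset (f := fun n => {ω | F ω ∈ A n ∧ F ω ∈ B n}) ?_
      fun n _ => (hmA n).inter (hmB n)
    intro i hi j hj hij
    exact (hdisjA _ hi hj hij).mono (fun ω h => h.1) (fun ω h => h.1)
  have hsub : (⋃ n ∈ range (L + 1), {ω | F ω ∈ A n ∧ F ω ∈ B n}) ⊆
      {ω | GoodRun p (res T ω) z ∧
        ¬ QPrime p (res T ω (nextZero p (res T ω) z)) (nextZero p (res T ω) z)} := by
    intro ω hω
    simp only [Set.mem_iUnion, Finset.mem_range, exists_prop] at hω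
    obtain ⟨n, _, ⟨hg, hn⟩, r, hr, hrq⟩ := hω
    refine ⟨hg, fun hQ => ?_⟩
    change nextZero p (res T ω) z = n at hn
    rw [hn] at hQ
    have hr' := Finset.mem_filter.1 hr
    have hrn : r ≤ n ^ 2 := (Finset.mem_Ioc.1 hr'.1).2
    have hrL : L + 2 < r := (Finset.mem_Ioc.1 hr'.1).1
    refine hQ r hr'.2.1 ?_ hrq
    have hnpos : 1 ≤ n := by
      rcases Nat.eq_zero_or_pos n with h0 | h0
      · rw [h0] at hrn; omega
      · exact h0
    calc r ^ 2 ≤ (n ^ 2) ^ 2 := Nat.pow_le_pow_left hrn 2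
      _ = n ^ 4 := by ring
      _ ≤ n ^ (p - 1) := Nat.pow_le_pow_right hnpos (by omega)
      _ ≤ q p n := le_q hp1 n
  calc (1 - Real.exp (-c')) * μ.real {ω | GoodRun p (res T ω) z}
      = ∑ n ∈ range (L + 1), (1 - Real.exp (-c')) * μ.real {ω | F ω ∈ A n} := by
        rw [hsum, Finset.mul_sum]
    _ ≤ ∑ n ∈ range (L + 1), μ.real {ω | F ω ∈ A n ∧ F ω ∈ B n} := Finset.sum_le_sum hone
    _ = μ.real (⋃ n ∈ range (L + 1), {ω | F ω ∈ A n ∧ F ω ∈ B n}) := hsum2.symm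
    _ ≤ _ := measureReal_mono hsub

end Pool.Agent.L5helper32.GR.GRFive
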