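import Pool.Agent.L5helper32.GP.Defs
import Pool.Agent.L5helper58.GRRoots
import Pool.Agent.L5helper58.GPRoots
import Pool.Agent.L5helper78.GRFive

set_option autoImplicit false

open Finset MeasureTheory ProbabilityTheory

namespace Pool.Agent.L5helper78.GPD2

open Pool.Agent.L5helper32.GR (q)
open Pool.Agent.L5helper32.GR.GRFive (q_mul)

theorem q_zero {p : ℕ} (hp : 1 ≤ p) : q p 0 = p := by
  have h3 : ∀ k ∈ Icc 1 p, k ≠ 1 → p.choose k * 0 ^ (k - 1) = 0 := by
    intro k hk hk1
    have : k - 1 ≠ 0 := by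
      have := (Finset.mem_Icc.1 hk).1
      omega
    rw [zero_pow this, mul_zero]
  unfold q
  rw [Finset.sum_eq_single_of_mem 1 (Finset.mem_Icc.2 ⟨le_rfl, by omega⟩) h3]
  simp

theorem mod_iff {p r : ℕ} (hp : p.Prime) (hr : r.Prime) : p ∣ r - 1 ↔ r % p = 1 := by
  have h1 : r ≡ 1 [MOD p] ↔ p ∣ r - 1 := by
    constructor
    · intro h; exact (Nat.modEq_iff_dvd' hr.one_lt.le).1 h.symm
    · intro h; exact ((Nat.modEq_iff_dvd' hr.one_lt.le).2 h).symm
  rw [← h1, Nat.ModEq, Nat.mod_eq_of_lt hp.one_lt]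

/-- The number of the roots of `q_p` modulo a prime `r > p`. -/
theorem card_q {p r : ℕ} (hp : p.Prime) (hr : r.Prime) (hpr : p < r) :
    ((range r).filter fun t => r ∣ q p t).card = if r % p = 1 then p - 1 else 0 := by
  classical
  have : Fact r.Prime := ⟨hr⟩
  have : Fact p.Prime := ⟨hp⟩
  have hcardU : Fintype.card (ZMod r)ˣ = r - 1 := ZMod.card_units r
  have hbij : ((range r).filter fun t => r ∣ q p t).card
      = (Finset.univ.filter fun u : (ZMod r)ˣ => orderOf u = p).card := by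
    symm
    refine Finset.card_bij (fun u _ => ((u : ZMod r) - 1).val) ?_ ?_ ?_
    · intro u hu
      have hu' := (Finset.mem_filter.1 hu).2
      rw [Finset.mem_filter, Finset.mem_range]
      refine ⟨ZMod.val_lt _, ?_⟩
      have hu1 : (u : ZMod r) ≠ 1 := by
        intro h1
        have : u = 1 := Units.ext h1
        rw [this, orderOf_one] at hu'
        exact hp.one_lt.ne hu'
      have hup : (u : ZMod r) ^ p = 1 := by
        have : u ^ p = 1 := by rw [← hu']; exact pow_orderOf_eq_one u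
        rw [← Units.val_pow_eq_pow_val, this, Units.val_one]
      set t := ((u : ZMod r) - 1).val with ht
      have htc : ((t : ℕ) : ZMod r) = (u : ZMod r) - 1 := by
        rw [ht, ZMod.natCast_zmod_val]
      have hq : (((t + 1) ^ p : ℕ) : ZMod r) = ((1 + t * q p t : ℕ) : ZMod r) := by rw [q_mul]
      push_cast at hq
      rw [htc] at hq
      have h2 : ((u : ZMod r) - 1) * ((q p t : ℕ) : ZMod r) = 0 := by
        have h3 : ((u : ZMod r) - 1 + 1) ^ p = 1 := by rw [sub_add_cancel, hup]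
        rw [h3] at hq
        linear_combination -hq
      have h4 : ((q p t : ℕ) : ZMod r) = 0 := by
        rcases mul_eq_zero.1 h2 with h5 | h5
        · exact absurd (sub_eq_zero.1 h5) hu1
        · exact h5
      exact (ZMod.natCast_eq_zero_iff _ _).1 h4
    · intro u _ v _ huv
      have h1 := ZMod.val_injective r huv
      exact Units.ext (sub_left_injective h1)
    · intro t ht
      obtain ⟨htr, htq⟩ := Finset.mem_filter.1 ht
      rw [Finset.mem_range] at htr
      have hqz : ((q p t : ℕ) : ZMod r) = 0 := (ZMod.natCast_eq_zero_iff _ _).2 htq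
      have hpow : ((t : ZMod r) + 1) ^ p = 1 := by
        have hq : (((t + 1) ^ p : ℕ) : ZMod r) = ((1 + t * q p t : ℕ) : ZMod r) := by rw [q_mul]
        push_cast at hq
        rw [hqz, mul_zero, add_zero] at hq
        exact hq
      have hne : ((t : ZMod r) + 1) ≠ 0 := by
        intro h0
        rw [h0, zero_pow hp.ne_zero] at hpow
        exact zero_ne_one hpow
      set u : (ZMod r)ˣ := Units.mk0 _ hne with hu
      have huv : (u : ZMod r) = (t : ZMod r) + 1 := by rw [hu, Units.val_mk0]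
      refine ⟨u, ?_, ?_⟩
      · rw [Finset.mem_filter]
        refine ⟨Finset.mem_univ _, orderOf_eq_prime ?_ ?_⟩
        · apply Units.ext
          rw [Units.val_pow_eq_pow_val, huv, hpow, Units.val_one]
        · intro h1
          have h2 : (t : ZMod r) + 1 = 1 := by rw [← huv, h1, Units.val_one]
          have h3 : (t : ZMod r) = 0 := by simpa using h2
          have h4 : r ∣ t := (ZMod.natCast_eq_zero_iff _ _).1 h3
          have h5 : t = 0 := Nat.eq_zero_of_dvd_of_lt h4 htr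
          rw [h5, q_zero hp.one_lt.le] at htq
          exact absurd (Nat.le_of_dvd hp.pos htq) (by omega)
      · rw [huv, add_sub_cancel_right, ZMod.val_cast_of_lt htr]
  rw [hbij]
  split_ifs with h
  · have hd : p ∣ Fintype.card (ZMod r)ˣ := by rw [hcardU]; exact (mod_iff hp hr).2 h
    rw [IsCyclic.card_orderOf_eq_totient hd, Nat.totient_prime hp]
  · rw [Finset.card_eq_zero, Finset.filter_eq_empty_iff]
    intro u _ hu
    apply h
    rw [← mod_iff hp hr, ← hcardU, ← hu]
    exact orderOf_dvd_card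

end Pool.Agent.L5helper78.GPD2

namespace Pool.Agent.L5helper32.GP

open Pool.Agent.L5helper32.GR (Root w pr sg Dep lev q)
open Pool.Agent.L5helper58.GRRoots (prob_mem indep_forall')

theorem prob_dvd {p : ℕ} (hp : p.Prime) {Ω : Type} [MeasurableSpace Ω] {μ : Measure Ω}
    [IsProbabilityMeasure μ] {T : ℕ × ℕ → Ω → ℕ} (h : GR.Res μ T) (c : ℕ) {r : ℕ} (hr : r.Prime)
    (hpr : p < r) :
    μ.real {ω | ¬ r ∣ q p (T (c, r) ω)} = if r % p = 1 then 1 - ((p : ℝ) - 1) / r else 1 := by
  have hr0 : (r : ℝ) ≠ 0 := by exact_mod_cast hr.pos.ne'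
  have hall : μ.real {ω | T (c, r) ω ∈ range r} = 1 := by
    rw [prob_mem h c hr (range r) (fun t ht => by simpa using ht), card_range, div_self hr0]
  have hms : MeasurableSet {ω | T (c, r) ω ∈ range r} :=
    h.meas (c, r) (MeasurableSet.of_discrete (s := {t | t ∈ range r}))
  have hae : ∀ᵐ ω ∂μ, T (c, r) ω ∈ range r := by
    refine (mem_ae_iff_prob_eq_one hms).mpr ?_
    rw [measureReal_def] at hall
    exact (ENNReal.toReal_eq_one_iff _).mp hall
  have h2 : μ.real {ω | r ∣ q p (T (c, r) ω)}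
      = μ.real {ω | T (c, r) ω ∈ (range r).filter (fun t => r ∣ q p t)} := by
    refine measureReal_congr ?_
    filter_upwards [hae] with ω hω
    refine propext ?_
    show r ∣ q p (T (c, r) ω) ↔ T (c, r) ω ∈ (range r).filter (fun t => r ∣ q p t)
    rw [Finset.mem_filter]
    exact ⟨fun hh => ⟨hω, hh⟩, fun hh => hh.2⟩
  rw [prob_mem h c hr _ (fun t ht => by
    rw [Finset.mem_filter] at ht; simpa using ht.1),
    Pool.Agent.L5helper78.GPD2.card_q hp hr hpr] at h2
  have h4 : MeasurableSet {ω | r ∣ q p (T (c, r) ω)} :=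
    h.meas (c, r) (MeasurableSet.of_discrete (s := {t | r ∣ q p t}))
  have h5 := probReal_compl_eq_one_sub (μ := μ) h4
  rw [h2] at h5
  have h6 : {ω | ¬ r ∣ q p (T (c, r) ω)} = {ω | r ∣ q p (T (c, r) ω)}ᶜ := rfl
  rw [h6, h5]
  have hp1 := hp.one_lt.le
  split_ifs
  · push_cast [Nat.cast_sub hp1]; ring
  · simp

/-- D2: the exact probability. -/
theorem prob_noq {p : ℕ} (hp : p.Prime) (h3 : 3 ≤ p) {Ω : Type} [MeasurableSpace Ω] {μ : Measure Ω}
    [IsProbabilityMeasure μ] {T : ℕ × ℕ × ℕ → Ω → ℕ} (h : Res μ T) (n : ℕ) {a : ℕ} (ha : p ≤ a) :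
    μ.real {ω | ∀ r, r.Prime → a < r → r ^ 2 ≤ q p n → ¬ r ∣ q p (res T ω n r 0)}
      = ∏ r ∈ (Ioc a (Nat.sqrt (q p n))).filter (fun r => r.Prime ∧ r % p = 1),
          (1 - ((p : ℝ) - 1) / r) := by
  classical
  have hz := h.zero
  set R := (Ioc a (Nat.sqrt (q p n))).filter Nat.Prime with hR
  have hinj : Set.InjOn (fun r : ℕ => (n, r)) (R : Set ℕ) := by
    intro a _ b _ hab
    exact (Prod.mk.inj hab).2
  have h1 := indep_forall' (μ := μ) hz.indep (R.image (fun r => (n, r)))
    (fun i t => ¬ i.2 ∣ q p t)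
  rw [Finset.prod_image hinj] at h1
  have h2 : {ω | ∀ r, r.Prime → a < r → r ^ 2 ≤ q p n → ¬ r ∣ q p (res T ω n r 0)}
      = {ω | ∀ i ∈ R.image (fun r => (n, r)), ¬ i.2 ∣ q p (T (i.1, i.2, 0) ω)} := by
    ext ω
    constructor
    · intro hh i hi
      obtain ⟨r, hr, rfl⟩ := Finset.mem_image.1 hi
      obtain ⟨hr1, hr2⟩ := Finset.mem_filter.1 hr
      obtain ⟨hr3, hr4⟩ := Finset.mem_Ioc.1 hr1
      exact hh r hr2 hr3 (Nat.le_sqrt'.1 hr4)
    · intro hh r h3 h4 h5
      exact hh (n, r) (Finset.mem_image.2 ⟨r, Finset.mem_filter.2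
        ⟨Finset.mem_Ioc.2 ⟨h4, Nat.le_sqrt'.2 h5⟩, h3⟩, rfl⟩)
  rw [h2, h1]
  have h3' : ∀ r ∈ R, μ.real {ω | ¬ r ∣ q p (T (n, r, 0) ω)}
      = if r % p = 1 then 1 - ((p : ℝ) - 1) / r else 1 := by
    intro r hr
    obtain ⟨hr1, hr2⟩ := Finset.mem_filter.1 hr
    exact prob_dvd hp hz n hr2 (lt_of_le_of_lt ha (Finset.mem_Ioc.1 hr1).1)
  rw [Finset.prod_congr rfl h3', ← Finset.prod_filter, hR, Finset.filter_filter]

end Pool.Agent.L5helper32.GP
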