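import Pool.Agent.L5helper32.GR.Defs

set_option autoImplicit false

open Finset MeasureTheory ProbabilityTheory

namespace Pool.Agent.L5helper32.GP

theorem card_roots_aux {n p : ℕ} (hn : n ≠ 0) (hp : p ≠ 0) {m : ℕ}
    (h : ∀ [NeZero n], #{u : (ZMod n)ˣ | u ^ p = 1} ≤ m) :
    #{t ∈ range n | n ∣ (t + 1) ^ p - 1} ≤ m := by
  classical
  have : NeZero n := ⟨hn⟩
  refine le_trans ?_ (h)
  let f : ℕ → (ZMod n)ˣ := fun t =>
    if h : (((t + 1 : ℕ) : ZMod n)) ^ p = 1 then Units.ofPowEqOne _ p h hp else 1
  have hone : ∀ t, n ∣ (t + 1) ^ p - 1 → (((t + 1 : ℕ) : ZMod n)) ^ p = 1 := by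
    intro t ht
    have h1 : 1 ≤ (t + 1) ^ p := Nat.one_le_pow _ _ (by omega)
    have h2 := (ZMod.natCast_eq_zero_iff _ _).2 ht
    rw [Nat.cast_sub h1, sub_eq_zero] at h2
    rw [← Nat.cast_pow, h2, Nat.cast_one]
  refine Finset.card_le_card_of_injOn f ?_ ?_
  · intro t ht
    have ht' := (Finset.mem_filter.1 ht).2
    have h3 := hone t ht'
    simp only [Finset.coe_filter, Finset.mem_univ, true_and]
    change f t ^ p = 1
    simp only [f, dif_pos h3]
    exact Units.pow_ofPowEqOne _ _
  · intro t ht t' ht' htt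
    have h1 := Finset.mem_filter.1 ht
    have h1' := Finset.mem_filter.1 ht'
    have h3 := hone t h1.2
    have h3' := hone t' h1'.2
    simp only [f, dif_pos h3, dif_pos h3'] at htt
    have h4 : (((t + 1 : ℕ) : ZMod n)) = ((t' + 1 : ℕ) : ZMod n) := by
      have := congrArg Units.val htt
      simpa using this
    have h5 : (t : ZMod n) = (t' : ZMod n) := by
      push_cast at h4
      exact add_right_cancel h4
    have h6 := (ZMod.natCast_eq_natCast_iff' _ _ _).1 h5
    rwa [Nat.mod_eq_of_lt (Finset.mem_range.1 h1.1), Nat.mod_eq_of_lt (Finset.mem_range.1 h1'.1)]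
      at h6

theorem card_roots_two (k : ℕ) :
    #{t ∈ range (2 ^ k) | 2 ^ k ∣ (t + 1) ^ 2 - 1} ≤ 4 * 2 := by
  rcases Nat.lt_or_ge k 4 with hk | hk
  · refine (Finset.card_filter_le _ _).trans ?_
    rw [Finset.card_range]
    calc 2 ^ k ≤ 2 ^ 3 := Nat.pow_le_pow_right (by norm_num) (by omega)
      _ = 4 * 2 := by norm_num
  · obtain ⟨j, rfl⟩ : ∃ j, k = j + 2 := ⟨k - 2, by omega⟩
    have hsub : ({t ∈ range (2 ^ (j + 2)) | 2 ^ (j + 2) ∣ (t + 1) ^ 2 - 1} : Finset ℕ) ⊆
        {0, 2 * 2 ^ j, 2 * (2 ^ j - 1), 2 * (2 * 2 ^ j - 1)} := by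
      intro t ht
      rw [Finset.mem_filter, Finset.mem_range] at ht
      obtain ⟨ht1, ht2⟩ := ht
      have e : (t + 1) ^ 2 - 1 = t * (t + 2) := by
        have : (t + 1) ^ 2 = t * (t + 2) + 1 := by ring
        omega
      rw [e] at ht2
      have heven : 2 ∣ t := by
        have h1 : 2 ∣ t * (t + 2) := (Dvd.intro_left (2 ^ (j + 1)) (by ring)).trans ht2
        rcases (Nat.prime_two.dvd_mul).1 h1 with h | h
        · exact h
        · exact (Nat.dvd_add_left (dvd_refl 2)).1 h
      obtain ⟨s, rfl⟩ := heven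
      have h2 : 2 ^ j ∣ s * (s + 1) := by
        have e2 : 2 * s * (2 * s + 2) = 4 * (s * (s + 1)) := by ring
        have e3 : 2 ^ (j + 2) = 4 * 2 ^ j := by ring
        rw [e2, e3] at ht2
        exact Nat.dvd_of_mul_dvd_mul_left (by norm_num) ht2
      have hs : s < 2 * 2 ^ j := by
        have e3 : 2 ^ (j + 2) = 2 * (2 * 2 ^ j) := by ring
        rw [e3] at ht1
        omega
      have hpos : 0 < 2 ^ j := by positivity
      have h3 : 2 ^ j ∣ s ∨ 2 ^ j ∣ s + 1 := by
        rcases Nat.even_or_odd s with hse | hso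
        · left
          have hc : Nat.Coprime (2 ^ j) (s + 1) :=
            Nat.Coprime.pow_left j ((Nat.coprime_two_left).2 (Even.add_one hse))
          exact hc.dvd_of_dvd_mul_right h2
        · right
          have hc : Nat.Coprime (2 ^ j) s := Nat.Coprime.pow_left j ((Nat.coprime_two_left).2 hso)
          exact hc.dvd_of_dvd_mul_left h2
      simp only [Finset.mem_insert, Finset.mem_singleton]
      rcases h3 with ⟨c, hc⟩ | ⟨c, hc⟩
      · have hc2 : c < 2 := by
          by_contra h
          have : 2 ^ j * 2 ≤ 2 ^ j * c := Nat.mul_le_mul_left _ (by omega)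
          omega
        interval_cases c
        · left; omega
        · right; left; omega
      · have hc2 : c ≤ 2 := by
          by_contra h
          have : 2 ^ j * 3 ≤ 2 ^ j * c := Nat.mul_le_mul_left _ (by omega)
          omega
        interval_cases c
        · omega
        · right; right; left; omega
        · right; right; right; omega
    refine (Finset.card_le_card hsub).trans ?_
    refine (Finset.card_le_four).trans (by norm_num)

/-- The number of `p`-th roots of unity modulo `r ^ k` is at most `4 p`. -/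
theorem card_roots {p : ℕ} (hp : p.Prime) {r : ℕ} (hr : r.Prime) (k : ℕ) :
    #{t ∈ range (r ^ k) | r ^ k ∣ (t + 1) ^ p - 1} ≤ 4 * p := by
  have hn : r ^ k ≠ 0 := pow_ne_zero _ hr.ne_zero
  by_cases h2 : r = 2
  · subst h2
    by_cases hp2 : p = 2
    · subst hp2; exact card_roots_two k
    · refine card_roots_aux hn hp.ne_zero ?_
      intro _
      have h1 : (Finset.univ.filter fun u : (ZMod (2 ^ k))ˣ => u ^ p = 1) ⊆ {1} := by
        intro u hu
        rw [Finset.mem_filter] at hu
        rw [Finset.mem_singleton]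
        have h3 : orderOf u ∣ p := orderOf_dvd_of_pow_eq_one hu.2
        rcases (Nat.dvd_prime hp).1 h3 with h4 | h4
        · exact orderOf_eq_one_iff.1 h4
        · exfalso
          have h5 : orderOf u ∣ Fintype.card (ZMod (2 ^ k))ˣ := orderOf_dvd_card
          rw [ZMod.card_units_eq_totient, h4] at h5
          rcases Nat.eq_zero_or_pos k with h0 | h0
          · subst h0; simp at h5; exact hp.one_lt.ne' h5
          · rw [Nat.totient_prime_pow Nat.prime_two h0] at h5
            have h6 : p ∣ 2 ^ (k - 1) := by simpa using h5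
            have h7 := (Nat.prime_dvd_prime_iff_eq hp Nat.prime_two).1 (hp.dvd_of_dvd_pow h6)
            exact hp2 h7
      have := Finset.card_le_card h1
      rw [Finset.card_singleton] at this
      have h8 := hp.one_lt
      exact this.trans (by omega)
  · refine card_roots_aux hn hp.ne_zero ?_
    intro _
    have : IsCyclic (ZMod (r ^ k))ˣ := ZMod.isCyclic_units_of_prime_pow r hr h2 k
    refine (IsCyclic.card_pow_eq_one_le hp.pos).trans (by omega)

end Pool.Agent.L5helper32.GP
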