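import Pool.Agent.L5helper13.TQ.Defs

set_option autoImplicit false

namespace Pool.Agent.L5helper78.TQ

open MvPolynomial

theorem deg_succ {n : ℕ} (e : Fin n →₀ ℕ) (d : ℕ) (h : e.degree = d + 1) :
    ∃ (j : Fin n) (e' : Fin n →₀ ℕ), e = Finsupp.single j 1 + e' ∧ e'.degree = d := by
  have h0 : ∃ j, e j ≠ 0 := by
    by_contra hne
    push Not at hne
    have : e = 0 := Finsupp.ext hne
    rw [this, map_zero] at h
    omega
  obtain ⟨j, hj⟩ := h0
  have hle : Finsupp.single j 1 ≤ e := by
    rw [Finsupp.single_le_iff]
    omega
  refine ⟨j, e - Finsupp.single j 1, (add_tsub_cancel_of_le hle).symm, ?_⟩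
  have h1 := congrArg Finsupp.degree (add_tsub_cancel_of_le hle)
  rw [map_add, h, Finsupp.degree_single] at h1
  omega

end Pool.Agent.L5helper78.TQ

namespace Pool.Agent.L5helper13.TQ

open MvPolynomial

/-- TQ6 -/
theorem quad_expand (k : Type) [Field k] [CharZero k] (n : ℕ) (p : MvPolynomial (Fin n) k)
    (hp : p.totalDegree ≤ 2) (h0 : coeff 0 p = 0) (x : Fin n → k) :
    eval x p = ∑ j, coeff (Finsupp.single j 1) p * x j +
      ∑ j, ∑ l, (coeff (Finsupp.single j 1 + Finsupp.single l 1) p *
        (if j = l then 1 else 1 / 2)) * (x j * x l) := by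
  have h := Finset.sum_induction (s := p.support) (fun e => monomial e (coeff e p))
    (fun q : MvPolynomial (Fin n) k => eval x q = ∑ j, coeff (Finsupp.single j 1) q * x j +
      ∑ j, ∑ l, (coeff (Finsupp.single j 1 + Finsupp.single l 1) q *
        (if j = l then 1 else 1 / 2)) * (x j * x l)) ?_ ?_ ?_
  · rwa [← p.as_sum] at h
  · intro q r hq hr
    rw [map_add, hq, hr]
    simp only [coeff_add, add_mul, Finset.sum_add_distrib]
    ring
  · simp
  · intro e he
    have hdeg : e.degree = 1 ∨ e.degree = 2 := by
      have h1 : e.degree ≤ 2 := (le_totalDegree he).trans hp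
      have h2 : e.degree ≠ 0 := by
        intro h3
        have h4 : e = 0 := (Finsupp.degree_eq_zero_iff e).1 h3
        rw [h4, mem_support_iff] at he
        exact he h0
      omega
    set c := coeff e p with hc
    rcases hdeg with hd | hd
    · obtain ⟨j, e', rfl, h2⟩ := Pool.Agent.L5helper78.TQ.deg_succ e 0 hd
      have h3 : e' = 0 := (Finsupp.degree_eq_zero_iff e').1 h2
      subst h3
      rw [add_zero]
      have hA : ∀ a b : Fin n, (Finsupp.single j 1 : Fin n →₀ ℕ) ≠
          Finsupp.single a 1 + Finsupp.single b 1 := by
        intro a b hab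
        have := congrArg Finsupp.degree hab
        rw [map_add, Finsupp.degree_single, Finsupp.degree_single, Finsupp.degree_single] at this
        omega
      have hB : ∀ a b : Fin n, coeff (Finsupp.single a 1 + Finsupp.single b 1)
          (monomial (Finsupp.single j 1) c : MvPolynomial (Fin n) k) = 0 := by
        intro a b
        rw [coeff_monomial, if_neg (hA a b)]
      simp only [hB, zero_mul, Finset.sum_const_zero, add_zero]
      rw [Finset.sum_eq_single j]
      · rw [coeff_monomial, if_pos rfl, eval_monomial]
        simp
      · intro b _ hb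
        rw [coeff_monomial, if_neg, zero_mul]
        intro h5
        exact hb ((Finsupp.single_left_injective one_ne_zero h5).symm)
      · intro h5; exact absurd (Finset.mem_univ j) h5
    · obtain ⟨j, e', rfl, h2⟩ := Pool.Agent.L5helper78.TQ.deg_succ e 1 hd
      obtain ⟨l, e'', rfl, h3⟩ := Pool.Agent.L5helper78.TQ.deg_succ e' 0 h2
      have h4 : e'' = 0 := (Finsupp.degree_eq_zero_iff e'').1 h3
      subst h4
      rw [add_zero]
      have hA : ∀ a : Fin n, (Finsupp.single j 1 + Finsupp.single l 1 : Fin n →₀ ℕ) ≠
          Finsupp.single a 1 := by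
        intro a hab
        have := congrArg Finsupp.degree hab
        rw [map_add, Finsupp.degree_single, Finsupp.degree_single, Finsupp.degree_single] at this
        omega
      have hB : ∀ a : Fin n, coeff (Finsupp.single a 1)
          (monomial (Finsupp.single j 1 + Finsupp.single l 1) c : MvPolynomial (Fin n) k) = 0 := by
        intro a
        rw [coeff_monomial, if_neg (hA a)]
      simp only [hB, zero_mul, Finset.sum_const_zero, zero_add]
      have hC : ∀ a b : Fin n, (Finsupp.single j 1 + Finsupp.single l 1 : Fin n →₀ ℕ) =
          Finsupp.single a 1 + Finsupp.single b 1 ↔ (a = j ∧ b = l) ∨ (a = l ∧ b = j) := by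
        intro a b
        rw [Finsupp.single_add_single_eq_single_add_single one_ne_zero one_ne_zero]
        constructor
        · rintro (⟨h5, h6⟩ | ⟨_, h5, h6⟩ | ⟨h5, _⟩)
          · exact Or.inl ⟨h5.symm, h6.symm⟩
          · exact Or.inr ⟨h6.symm, h5.symm⟩
          · omega
        · rintro (⟨h5, h6⟩ | ⟨h5, h6⟩)
          · exact Or.inl ⟨h5.symm, h6.symm⟩
          · exact Or.inr (Or.inl ⟨rfl, h6.symm, h5.symm⟩)
      simp only [coeff_monomial, hC]
      have hL : eval x (monomial (Finsupp.single j 1 + Finsupp.single l 1) c) = c * (x j * x l) := by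
        have h5 : (monomial (Finsupp.single j 1 + Finsupp.single l 1) c : MvPolynomial (Fin n) k)
            = C c * (X j * X l) := by
          rw [X, X, monomial_mul, C_mul_monomial]
          simp
        rw [h5]
        simp
      rw [hL]
      by_cases hjl : j = l
      · subst hjl
        simp only [or_self]
        rw [Finset.sum_eq_single j, Finset.sum_eq_single j]
        · simp
        · intro b _ hb
          rw [if_neg (fun h => hb h.2)]
          simp
        · intro h5; exact absurd (Finset.mem_univ j) h5
        · intro a _ ha
          refine Finset.sum_eq_zero fun b _ => ?_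
          rw [if_neg (fun h => ha h.1)]
          simp
        · intro h5; exact absurd (Finset.mem_univ j) h5
      · have hS : ∀ a b : Fin n, ((if (a = j ∧ b = l) ∨ (a = l ∧ b = j) then c else 0) *
            (if a = b then (1 : k) else 1 / 2)) * (x a * x b) =
            (if a = j then (if b = l then c / 2 * (x j * x l) else 0) else 0) +
            (if a = l then (if b = j then c / 2 * (x j * x l) else 0) else 0) := by
          intro a b
          by_cases h1 : a = j
          · subst h1
            by_cases h2 : b = l
            · subst h2
              rw [if_pos (Or.inl ⟨rfl, rfl⟩), if_neg hjl, if_pos rfl, if_pos rfl, if_neg hjl]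
              ring
            · simp [h2, hjl]
          · by_cases h3 : a = l
            · subst h3
              by_cases h4 : b = j
              · subst h4
                simp [h1, hjl, Ne.symm hjl]
                ring
              · simp [h1, h4]
            · simp [h1, h3]
        simp only [hS, Finset.sum_add_distrib]
        simp
        ring

end Pool.Agent.L5helper13.TQ
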